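import Mathlib
import Pool.Agent.R845.VG
import Pool.Agent.Run7.h141.CE.Main

/-!
# Maps of odd index given by cubic polynomials exist only to rational cubic hypersurfaces

Let `X = (F = 0)` be a smooth cubic hypersurface of dimension `n ≥ 1` (any one). A rational map from
an affine or projective space of ANY dimension `N` to `X`, given by polynomials of degree at most
three, has odd index if there is a point `y` with coordinates in an extension `M` of the function
field of `X` of finite odd degree, whose image is the generic point of `X`; that is, the generic fibre
has a point of odd degree. For `N = n` these are the dominant maps of odd degree; for `N > n` this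
holds for example if the map has a rational section, or if its generic fibre is a rational variety, as
in the definitions of stable rationality and retract rationality.

(1) If a map of odd index to `X` is given by polynomials of degree at most three then `X` is rational.
(2) If `n ≥ 3` and `X` is very general, then there are no such maps.

The starting files contain (2) for `N = n`, and for `n = 4` (every smooth cubic fourfold) they contain
that no dominant map, for any `N`, is given by polynomials of degree at most three.

Idea of the proof. Key step (`Run7.h141.CE.conicM`): let a conic over `M` be contained in `X`, pass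
through the generic point and meet a linear subspace `W` of `X` in a point over `M`. The plane of the
conic meets `X` in the conic and a line over `M`. The third point of `X` on the line which joins the
generic point with the point of `W` is on this line over `M`, hence not of odd degree (starting files,
project LI), and the chord is not tangent. So (starting files, project E3) the generic point of the
projective space has, over an extension of odd degree, a point of `X` in its fibre of the projection
from `W`, and by the theorem of Springer this projection has a rational section; so `X` is rational.
The rest is an induction on `N`. If the number of variables of the forms is at least `n + 2` the forms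
have a base point by the dimension theorem and `F (H) = 0`; otherwise they have one by the class bound
(starting files, project PD) and the theorem of Bezout. The lines through the base point give conics
over `M` which meet the linear space of `X` which is the image of the differential at the base point,
or lines over `M`, or forms in fewer variables of degree at most three. For the last case one has to
allow points `y` which are not generic.
-/

set_option autoImplicit false

namespace Pool.Agent.Results.MP_2619d0_ag.CubicMapsOddIndex

open MvPolynomial

/-- `F` is the equation of a smooth cubic hypersurface of dimension `n`: a cubic form in `n + 2`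
variables whose partial derivatives have no common zero besides the origin -/
def SmoothCubic {n : ℕ} (F : MvPolynomial (Fin (n + 2)) ℂ) : Prop :=
  F.IsHomogeneous 3 ∧ ∀ z : Fin (n + 2) → ℂ, (∀ i, eval z (pderiv i F) = 0) → z = 0

/-- `x` is a generic point of the hypersurface `F = 0` with coordinates in an extension field `M` of
the complex numbers: `F` vanishes at `x`, and every form vanishing at `x` is divisible by `F` -/
def GenericPoint {n : ℕ} {M : Type} [Field M] [Algebra ℂ M] (F : MvPolynomial (Fin (n + 2)) ℂ)
    (x : Fin (n + 2) → M) : Prop :=
  aeval x F = 0 ∧ ∀ (e : ℕ) (H : MvPolynomial (Fin (n + 2)) ℂ), H.IsHomogeneous e →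
    aeval x H = 0 → F ∣ H

/-- the field generated by the ratios of the coordinates of `x`; for a generic point of `X` it is
the function field of `X` -/
noncomputable def functionField {n : ℕ} {M : Type} [Field M] [Algebra ℂ M] (x : Fin (n + 2) → M) :
    IntermediateField ℂ M :=
  IntermediateField.adjoin ℂ {z | ∃ i j, z = x i / x j}

/-- there is a map of odd index given by polynomials of degree at most three: polynomials `G i` in
some number `N` of variables with `F (G) = 0`, and a point `y` with coordinates in some field `M`
such that `G (y)` is a generic point of `F = 0` and `M` has (finite) odd degree over the function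
field -/
def CubicMapOfOddIndex {n : ℕ} (F : MvPolynomial (Fin (n + 2)) ℂ) : Prop :=
  ∃ (N : ℕ) (G : Fin (n + 2) → MvPolynomial (Fin N) ℂ), (∀ i, (G i).totalDegree ≤ 3) ∧
    aeval G F = 0 ∧ ∃ (M : Type) (_ : Field M) (_ : Algebra ℂ M) (y : Fin N → M),
      GenericPoint F (fun i => aeval y (G i)) ∧
        Odd (Module.finrank (functionField fun i => aeval y (G i)) M)

/-- the hypersurface `F = 0` is rational: it has a birational parametrization, that is, polynomials
`G i` in `n` variables which form a generic point of the hypersurface and whose ratios generate the
field of rational functions in `n` variables -/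
def IsRational {n : ℕ} (F : MvPolynomial (Fin (n + 2)) ℂ) : Prop :=
  ∃ G : Fin (n + 2) → MvPolynomial (Fin n) ℂ,
    GenericPoint F (fun i => algebraMap (MvPolynomial (Fin n) ℂ)
      (FractionRing (MvPolynomial (Fin n) ℂ)) (G i)) ∧
    (functionField fun i => algebraMap (MvPolynomial (Fin n) ℂ)
      (FractionRing (MvPolynomial (Fin n) ℂ)) (G i)) = ⊤

/-- the coefficients of a cubic form -/
noncomputable def coeffs {n : ℕ} (F : MvPolynomial (Fin (n + 2)) ℂ) :
    {m : Fin (n + 2) →₀ ℕ // m.degree = 3} → ℂ := fun m => coeff m.1 F

/-- **Maps of odd index given by polynomials of degree at most three.** If there is such a map from a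
space of any dimension `N` to a smooth cubic hypersurface of dimension `n ≥ 1`, the hypersurface is
rational. For `n ≥ 3` there is a countable set of nonzero polynomials in the coefficients of cubic
forms such that there are no such maps to smooth cubic hypersurfaces outside their zero sets. -/
theorem result (n : ℕ) (hn : 1 ≤ n) :
    (∀ F : MvPolynomial (Fin (n + 2)) ℂ, SmoothCubic F → CubicMapOfOddIndex F → IsRational F) ∧
    (3 ≤ n → ∃ Ps : Set (MvPolynomial {m : Fin (n + 2) →₀ ℕ // m.degree = 3} ℂ), Ps.Countable ∧
      (0 : MvPolynomial {m : Fin (n + 2) →₀ ℕ // m.degree = 3} ℂ) ∉ Ps ∧
      ∀ F : MvPolynomial (Fin (n + 2)) ℂ, SmoothCubic F →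
        (∀ P ∈ Ps, eval (coeffs F) P ≠ 0) → ¬ CubicMapOfOddIndex F) := by
  have h2 : ∀ F : MvPolynomial (Fin (n + 2)) ℂ, SmoothCubic F → CubicMapOfOddIndex F →
      Pool.Agent.Run7.h141.CE.Sect F := by
    rintro F hF ⟨N, G, hG, hGF, M, _, _, y, hy, hodd⟩
    exact Pool.Agent.Run7.h141.CE.main hn hF.1 hF.2 N G hG hGF y hy hodd
  refine ⟨fun F hF h => ?_, fun hn3 => ?_⟩
  · exact Pool.Agent.Run7.h141.CE.sect_rational hn hF.1 hF.2 (h2 F hF h)
  · obtain ⟨Ps, h3, h4, h5⟩ := Pool.Agent.R845.VG.very_general (n + 2) 3
    refine ⟨Ps, h3, h4, fun F hF hP h => ?_⟩
    exact Pool.Agent.Run7.h141.CE.sect_general hn3 hF.1 hF.2 (h5 F hP) (h2 F hF h)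

end Pool.Agent.Results.MP_2619d0_ag.CubicMapsOddIndex
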