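import Mathlib
import Pool.Agent.R845.VG
import Pool.Agent.Run7.h643.MM.Lin

/-!
# Parametrizations of smooth hypersurfaces which are linear in all but some of the parameters

Let `X = (F = 0)` be a smooth hypersurface of degree `d` and dimension `n ≥ 1`. We consider rational maps from affine
spaces of ANY dimension `N` to `X`, given by polynomials in `N` variables which have degree at most one in each variable
outside a set `J` and total degree at most `k` in the variables of `J`. So the total degree is not bounded: examples are
the maps given by multihomogeneous forms of degree `(k, 1, 1, …, 1)` on products of projective spaces, and for `k = 0` the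
maps given by polynomials all of whose monomials are squarefree. The index of such a map is the greatest common divisor
of the degrees over the function field of `X` of the fields `M` for which there is a point `y` over `M` whose image is the
generic point of `X`; the index of a birational map, or of a map with a rational section, is one.

(1) If `k ≤ d - 1`, or `(n + 1) (k - 1) ^ n < d (d - 1) ^ n`, then the index is divisible by `d - 1`: this holds for every
smooth hypersurface of every degree `d ≥ 2`. In particular, for cubic hypersurfaces and `k ≤ 2` the index is even, so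
that no such map is birational, or has a rational section, or a generic fibre which is a rational variety.

(2) If `X` is a cubic hypersurface, `k = 3`, and the index is odd, then `X` is rational. If `n ≥ 3` and `X` is very
general there are no such maps.

Known before: for `N = n` a map which has degree at most one in one variable has degree divisible by `d - 1` (starting
files, project LI); no dominant maps of total degree `k` with `(n + 1) (k - 1) ^ n < d (d - 1) ^ n` (starting files,
project PD); (2) without linear variables (`CubicMapsOddIndex` by helper141 on this problem, which is used here).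

Idea of the proof. Let the map `G = t α + β` be linear in the variable `t`, let `y` be a point over `M` such that `G (y)`
is the generic point of `X`. If `α (y)` and `β (y)` are linearly independent over `M`, then they span a line over `M` in
`X` through the generic point, and `d - 1` divides the degree of `M` (starting files, project LI). Otherwise `G (y)` is
a multiple of `α (y)` or of `β (y)`, and one of the maps `α`, `β` to `X` has the generic point of `X` as the image of `y`;
it does not depend on `t`. So all linear variables can be removed.
-/

set_option autoImplicit false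

namespace Pool.Agent.Results.MP_2619d0_ag.LinearInOtherParameters

open MvPolynomial

/-- `F` is the equation of a smooth hypersurface of degree `d` and dimension `n`: a form of degree `d` in `n + 2`
variables whose partial derivatives have no common zero besides the origin -/
def Smooth (d : ℕ) {n : ℕ} (F : MvPolynomial (Fin (n + 2)) ℂ) : Prop :=
  F.IsHomogeneous d ∧ ∀ z : Fin (n + 2) → ℂ, (∀ i, eval z (pderiv i F) = 0) → z = 0

/-- `x` is a generic point of the hypersurface `F = 0` with coordinates in an extension field `M` of
the complex numbers: `F` vanishes at `x`, and every form vanishing at `x` is divisible by `F` -/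
def GenericPoint {n : ℕ} {M : Type} [Field M] [Algebra ℂ M] (F : MvPolynomial (Fin (n + 2)) ℂ)
    (x : Fin (n + 2) → M) : Prop :=
  aeval x F = 0 ∧ ∀ (e : ℕ) (H : MvPolynomial (Fin (n + 2)) ℂ), H.IsHomogeneous e →
    aeval x H = 0 → F ∣ H

/-- the field generated by the ratios of the coordinates of `x`; for a generic point of `X` it is
the function field of `X` -/
noncomputable def functionField {n : ℕ} {M : Type} [Field M] [Algebra ℂ M] (x : Fin (n + 2) → M) :
    IntermediateField ℂ M :=
  IntermediateField.adjoin ℂ {z | ∃ i j, z = x i / x j}

/-- the polynomials `G i` have degree at most one in each variable outside `J` and total degree at most `k` in the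
variables of `J` -/
def LinearOutside {n N : ℕ} (J : Finset (Fin N)) (k : ℕ) (G : Fin (n + 2) → MvPolynomial (Fin N) ℂ) : Prop :=
  ∀ i, ∀ m ∈ (G i).support, (∀ l ∉ J, m l ≤ 1) ∧ ∑ l ∈ J, m l ≤ k

/-- the hypersurface `F = 0` is rational: it has a birational parametrization, that is, polynomials
`G i` in `n` variables which form a generic point of the hypersurface and whose ratios generate the
field of rational functions in `n` variables -/
def IsRational {n : ℕ} (F : MvPolynomial (Fin (n + 2)) ℂ) : Prop :=
  ∃ G : Fin (n + 2) → MvPolynomial (Fin n) ℂ,
    GenericPoint F (fun i => algebraMap (MvPolynomial (Fin n) ℂ)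
      (FractionRing (MvPolynomial (Fin n) ℂ)) (G i)) ∧
    (functionField fun i => algebraMap (MvPolynomial (Fin n) ℂ)
      (FractionRing (MvPolynomial (Fin n) ℂ)) (G i)) = ⊤

/-- the coefficients of a cubic form -/
noncomputable def coeffs {n : ℕ} (F : MvPolynomial (Fin (n + 2)) ℂ) :
    {m : Fin (n + 2) →₀ ℕ // m.degree = 3} → ℂ := fun m => coeff m.1 F

/-- there is a map of odd index given by polynomials which are linear in the variables outside `J` and of degree at
most three in the variables of `J` -/
def OddIndexMap {n : ℕ} (F : MvPolynomial (Fin (n + 2)) ℂ) : Prop :=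
  ∃ (N : ℕ) (J : Finset (Fin N)) (G : Fin (n + 2) → MvPolynomial (Fin N) ℂ), LinearOutside J 3 G ∧
    aeval G F = 0 ∧ ∃ (M : Type) (_ : Field M) (_ : Algebra ℂ M) (y : Fin N → M),
      GenericPoint F (fun i => aeval y (G i)) ∧
        Odd (Module.finrank (functionField fun i => aeval y (G i)) M)

/-- **Main result.** (1) Let `X = (F = 0)` be a smooth hypersurface of degree `d ≥ 2` and dimension `n ≥ 1`, and `G` a map
to `X` from a space of any dimension which has degree at most one in each variable outside `J` and total degree at most
`k` in the variables of `J`, where `k ≤ d - 1` or `(n + 1) (k - 1) ^ n < d (d - 1) ^ n`. If the image of a point `y` over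
`M` is the generic point of `X`, then `d - 1` divides the degree of `M` over the function field of `X`. (2) A smooth cubic
hypersurface with an `OddIndexMap` is rational. (3) For `n ≥ 3` there is a countable set of nonzero polynomials in the
coefficients of the cubic forms such that no smooth cubic hypersurface outside their zero sets has an `OddIndexMap`. -/
theorem result (n : ℕ) (hn : 1 ≤ n) :
    (∀ (d k : ℕ) (F : MvPolynomial (Fin (n + 2)) ℂ), 2 ≤ d → Smooth d F →
      (k ≤ d - 1 ∨ (n + 1) * (k - 1) ^ n < d * (d - 1) ^ n) →
      ∀ (N : ℕ) (J : Finset (Fin N)) (G : Fin (n + 2) → MvPolynomial (Fin N) ℂ), LinearOutside J k G →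
      aeval G F = 0 → ∀ (M : Type) [Field M] [Algebra ℂ M] (y : Fin N → M),
      GenericPoint F (fun i => aeval y (G i)) →
        d - 1 ∣ Module.finrank (functionField fun i => aeval y (G i)) M) ∧
    (∀ F : MvPolynomial (Fin (n + 2)) ℂ, Smooth 3 F → OddIndexMap F → IsRational F) ∧
    (3 ≤ n → ∃ Ps : Set (MvPolynomial {m : Fin (n + 2) →₀ ℕ // m.degree = 3} ℂ), Ps.Countable ∧
      (0 : MvPolynomial {m : Fin (n + 2) →₀ ℕ // m.degree = 3} ℂ) ∉ Ps ∧
      ∀ F : MvPolynomial (Fin (n + 2)) ℂ, Smooth 3 F →
        (∀ P ∈ Ps, eval (coeffs F) P ≠ 0) → ¬ OddIndexMap F) := by
  have h2 : ∀ F : MvPolynomial (Fin (n + 2)) ℂ, Smooth 3 F → OddIndexMap F →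
      Pool.Agent.Run7.h141.CE.Sect F := by
    rintro F hF ⟨N, J, G, hG, hGF, M, _, _, y, hy, hodd⟩
    exact Pool.Agent.Run7.h643.MM.partB hn hF.1 hF.2 J G hG hGF y hy hodd
  refine ⟨fun d k F hd hF hk N J G hG hGF M _ _ y hy => ?_, fun F hF h => ?_, fun hn3 => ?_⟩
  · exact Pool.Agent.Run7.h643.MM.partA hn hd hF.1 hF.2 hk J G hG hGF y hy
  · exact Pool.Agent.Run7.h141.CE.sect_rational hn hF.1 hF.2 (h2 F hF h)
  · obtain ⟨Ps, h3, h4, h5⟩ := Pool.Agent.R845.VG.very_general (n + 2) 3
    refine ⟨Ps, h3, h4, fun F hF hP h => ?_⟩
    exact Pool.Agent.Run7.h141.CE.sect_general hn3 hF.1 hF.2 (h5 F hP) (h2 F hF h)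

end Pool.Agent.Results.MP_2619d0_ag.LinearInOtherParameters
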