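import Mathlib
import Pool.Agent.R845.VG
import Pool.Agent.Run7.h490.OR7

/-!
# Parametrizations of odd degree which force a cubic hypersurface to be rational

Let `X = (F = 0)` be ANY smooth cubic hypersurface of dimension `n ≥ 1`. (If `n ≥ 2`, then `X` always
has dominant rational maps of degree two from projective space.) Let `W` be a linear subspace of `X`.
The projection of `X` from `W` is a fibration in quadrics over a projective space. Each of the
following implies that it has a rational section, and therefore that `X` is rational:

* there is a family of rational curves of odd degree over `X` whose general member is mapped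
  isomorphically to a line by the projection from `W` (lines, conics through a fixed point, plane
  nodal cubics with a fixed node, twisted cubics which meet a fixed line twice, ...);
* the parity of the degree is not constant on the fibres of the projection: there are a generic point
  `x` of `X` over a field `M` of odd degree over the function field of `X`, and a point `y` of `X` over
  `M` in the same fibre, which is not a generic point of odd degree.

Conversely, if `W` has dimension at least one, then a rational section of the projection gives a
family of the first kind and a jump of the parity as in the last item. So the parity of the degree is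
constant on the fibres of the projection from `W` if and only if the projection has no rational
section.

So if `X` is smooth and not rational (for example a cubic threefold), then the
parity of the degree of a map `x` to `X` does not change if the points `x` are replaced by other
points of the fibres of the projection from a linear subspace `W`, for example by their reflections
in moving points of `W` (the third points of chords through `x` and a moving point of `W`). For the
very general cubic hypersurface of dimension at least three no projection from a linear subspace has
a rational section, and the parity is constant on the fibres of all these projections (in the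
starting files this was known for linear subspaces of small dimension only).

Idea of the proof. The starting files (project E3) show for cubics `X` that contain a linear subspace
`W` that points of odd degree of the above kinds give an isotropic vector of the generic quadratic
form of the projection over an extension of odd degree, and use Springer's theorem; for very general
cubics this is excluded by a specialization. Here the isotropic vector itself is turned into a
rational section over the generic point of projective space, in arbitrary coordinates, and into a
birational parametrization of `X` (reflections of the section in the points of `W`). The section is a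
point in the fibre of this parametrization which depends on fewer parameters, and the
parametrization maps to lines under the projection from `W` if one of the parameters of the base
varies.
-/

set_option autoImplicit false

namespace Pool.Agent.Results.MP_2619d0_ag.OddImpliesRational

open MvPolynomial

/-- `F` is the equation of a smooth cubic hypersurface of dimension `n`: a cubic form in `n + 2`
variables whose partial derivatives have no common zero besides the origin -/
def SmoothCubic {n : ℕ} (F : MvPolynomial (Fin (n + 2)) ℂ) : Prop :=
  F.IsHomogeneous 3 ∧ ∀ z : Fin (n + 2) → ℂ, (∀ i, eval z (pderiv i F) = 0) → z = 0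

/-- `x` is a generic point of the hypersurface `F = 0` with coordinates in an extension field `M` of
the complex numbers: `F` vanishes at `x`, and every form vanishing at `x` is divisible by `F` -/
def GenericPoint {n : ℕ} {M : Type} [Field M] [Algebra ℂ M] (F : MvPolynomial (Fin (n + 2)) ℂ)
    (x : Fin (n + 2) → M) : Prop :=
  aeval x F = 0 ∧ ∀ (e : ℕ) (H : MvPolynomial (Fin (n + 2)) ℂ), H.IsHomogeneous e →
    aeval x H = 0 → F ∣ H

/-- the field generated by the ratios of the coordinates of `x`; for a generic point of `X` it is
the function field of `X` -/
noncomputable def functionField {n : ℕ} {M : Type} [Field M] [Algebra ℂ M] (x : Fin (n + 2) → M) :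
    IntermediateField ℂ M :=
  IntermediateField.adjoin ℂ {z | ∃ i j, z = x i / x j}

/-- `x` is a generic point of the hypersurface `F = 0`, and the field `M` has odd degree over the
function field of the hypersurface -/
def OddPoint {n : ℕ} {M : Type} [Field M] [Algebra ℂ M] (F : MvPolynomial (Fin (n + 2)) ℂ)
    (x : Fin (n + 2) → M) : Prop :=
  GenericPoint F x ∧ Odd (Module.finrank (functionField x) M)

/-- the rational functions given by polynomials in `m` variables -/
noncomputable def asFunctions {n m : ℕ} (G : Fin (n + 2) → MvPolynomial (Fin m) ℂ) :
    Fin (n + 2) → FractionRing (MvPolynomial (Fin m) ℂ) :=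
  fun i => algebraMap (MvPolynomial (Fin m) ℂ) (FractionRing (MvPolynomial (Fin m) ℂ)) (G i)

/-- the hypersurface `F = 0` is rational: it has a birational parametrization by polynomials `G i` in
`n` variables, that is, the `G i` are the coordinates of a generic point and their ratios generate
the field of rational functions in `n` variables -/
def IsRational {n : ℕ} (F : MvPolynomial (Fin (n + 2)) ℂ) : Prop :=
  ∃ G : Fin (n + 2) → MvPolynomial (Fin n) ℂ,
    GenericPoint F (asFunctions G) ∧ functionField (asFunctions G) = ⊤

/-- the linear span of the vectors `A 0, …, A (r - 1)` is contained in the hypersurface `F = 0` -/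
def SpanInside {n r : ℕ} (F : MvPolynomial (Fin (n + 2)) ℂ) (A : Fin r → Fin (n + 2) → ℂ) : Prop :=
  ∀ a : Fin r → ℂ, eval (fun i => ∑ l, a l * A l i) F = 0

/-- the generic point `(1, X_1, …, X_(n+1))` of projective space of dimension `n + 1` -/
noncomputable def spacePoint (n : ℕ) :
    Fin (n + 2) → FractionRing (MvPolynomial (Fin (n + 1)) ℂ) :=
  asFunctions (Fin.cons 1 X)

/-- the projection of the hypersurface `F = 0` from the linear span `W` of the vectors `A l` has a
rational section: there are rational functions `s ≠ 0` and `w l` such that the point
`s z + ∑ w l A l`, where `z` is the generic point of projective space, is on the hypersurface -/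
def HasSection {n r : ℕ} (F : MvPolynomial (Fin (n + 2)) ℂ) (A : Fin r → Fin (n + 2) → ℂ) : Prop :=
  ∃ (s : FractionRing (MvPolynomial (Fin (n + 1)) ℂ))
    (w : Fin r → FractionRing (MvPolynomial (Fin (n + 1)) ℂ)), s ≠ 0 ∧
    aeval (fun i => s * spacePoint n i + ∑ l, w l * algebraMap ℂ _ (A l i)) F = 0

/-- curves over lines: there are `M = L(t)` with `t` transcendental over `L` and a generic point `x` of
`X` over `M` of odd degree whose image under the projection from the linear subspace `W` spanned by
the `A l` is a point `t β + γ` of a line over `L` -/
def LineFamily {n r : ℕ} (F : MvPolynomial (Fin (n + 2)) ℂ) (A : Fin r → Fin (n + 2) → ℂ) : Prop :=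
  ∃ (M : Type) (_ : Field M) (_ : Algebra ℂ M) (x : Fin (n + 2) → M) (L : IntermediateField ℂ M)
    (t : M), OddPoint F x ∧ Transcendental L t ∧ IntermediateField.adjoin L {t} = ⊤ ∧
    ∃ (s : M) (w : Fin r → M) (β γ : Fin (n + 2) → L), ∀ i,
      x i = s * (t * (β i : M) + (γ i : M)) + ∑ l, w l * algebraMap ℂ M (A l i)

/-- the parity is not constant on the fibres of the projection from the linear subspace `W` spanned by
the `A l`: there are a generic point `x` of `X` over a field `M` of odd degree and a point `y` of `X`
over `M` with the same image under the projection which is not a generic point of odd degree -/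
def ParityJump {n r : ℕ} (F : MvPolynomial (Fin (n + 2)) ℂ) (A : Fin r → Fin (n + 2) → ℂ) : Prop :=
  ∃ (M : Type) (_ : Field M) (_ : Algebra ℂ M) (x y : Fin (n + 2) → M), OddPoint F x ∧
    aeval y F = 0 ∧ ¬ OddPoint F y ∧
    ∃ (s : M) (w : Fin r → M), s ≠ 0 ∧
      ∀ i, y i = s * x i + ∑ l, w l * algebraMap ℂ M (A l i)

/-- for every linear subspace `W` of `X`, spanned by the `A l`: a rational section of the projection
makes `X` rational; curves over lines and a jump of the parity in a fibre give a rational section; and
if `W` has dimension at least one, then a rational section gives curves over lines and a jump of the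
parity -/
def Projections {n : ℕ} (F : MvPolynomial (Fin (n + 2)) ℂ) : Prop :=
  ∀ (r : ℕ) (A : Fin r → Fin (n + 2) → ℂ), SpanInside F A →
    (HasSection F A → IsRational F) ∧
    (LineFamily F A → HasSection F A) ∧
    (ParityJump F A → HasSection F A) ∧
    ((∃ l₁ l₂, LinearIndependent ℂ ![A l₁, A l₂]) → HasSection F A →
      LineFamily F A ∧ ParityJump F A)

/-- for no linear subspace `W` of `X` the projection has a rational section, curves over lines, or a
jump of the parity -/
def NoSections {n : ℕ} (F : MvPolynomial (Fin (n + 2)) ℂ) : Prop :=
  ∀ (r : ℕ) (A : Fin r → Fin (n + 2) → ℂ), SpanInside F A →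
    ¬ HasSection F A ∧ ¬ LineFamily F A ∧ ¬ ParityJump F A

/-- the coefficients of a cubic form -/
noncomputable def coeffs {n : ℕ} (F : MvPolynomial (Fin (n + 2)) ℂ) :
    {m : Fin (n + 2) →₀ ℕ // m.degree = 3} → ℂ := fun m => coeff m.1 F

/-- (1) Let `X` be any smooth cubic hypersurface of dimension `n ≥ 1`, and let `W` be a linear
subspace of `X`. A family of odd degree of rational curves over lines for the projection from `W`,
or a fibre of the projection on which the parity of the degree is not constant, gives a rational
section of the projection, and then `X` is rational. If `W` has dimension at least one, then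
conversely a rational section gives families over lines and a jump of the parity. (2) For all very
general cubic hypersurfaces of dimension `n ≥ 3`
(outside the zero sets of countably many nonzero polynomials in the coefficients) none of this
happens for any linear subspace of `X`. -/
theorem result :
    (∀ n : ℕ, 1 ≤ n → ∀ F : MvPolynomial (Fin (n + 2)) ℂ, SmoothCubic F → Projections F) ∧
    (∀ n : ℕ, 3 ≤ n →
      ∃ Ps : Set (MvPolynomial {m : Fin (n + 2) →₀ ℕ // m.degree = 3} ℂ), Ps.Countable ∧
        (0 : MvPolynomial {m : Fin (n + 2) →₀ ℕ // m.degree = 3} ℂ) ∉ Ps ∧
        ∀ F : MvPolynomial (Fin (n + 2)) ℂ, SmoothCubic F →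
          (∀ P ∈ Ps, eval (coeffs F) P ≠ 0) → NoSections F) := by
  have hne : ∀ {n : ℕ} {F : MvPolynomial (Fin (n + 2)) ℂ}, SmoothCubic F → F ≠ 0 := by
    intro n F hF
    exact Pool.Agent.TH314.PD.ne_zero_of_smooth (m := n + 1) hF.2
  have hline : ∀ {n r : ℕ} {F : MvPolynomial (Fin (n + 2)) ℂ} (A : Fin r → Fin (n + 2) → ℂ),
      SmoothCubic F → SpanInside F A → LineFamily F A →
      Pool.Agent.Run7.h490.OR.AdIso F (fun i l => A l i) := by
    rintro n r F A hF hA ⟨M, _, _, x, L, t, hx, ht, hM, s, w, β, γ, h⟩
    exact Pool.Agent.Run7.h490.OR.lines_iso hF.1 hF.2 (hne hF) (fun i l => A l i)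
        hA L t ht hM x hx.1 hx.2 s w (fun i => (β i : M)) (fun i => (γ i : M))
        (fun i => (β i).2) (fun i => (γ i).2) h
  have hjump : ∀ {n r : ℕ} {F : MvPolynomial (Fin (n + 2)) ℂ} (A : Fin r → Fin (n + 2) → ℂ),
      SmoothCubic F → SpanInside F A → ParityJump F A →
      Pool.Agent.Run7.h490.OR.AdIso F (fun i l => A l i) := by
    rintro n r F A hF hA ⟨M, _, _, x, y, hx, hy, hyo, s, w, hs, h⟩
    exact Pool.Agent.Run7.h490.OR.fibre_iso hF.1 hF.2 (hne hF)
          (fun i l => A l i) hA x y hx.1 hx.2 hy s hs w h hyo
  refine ⟨?_, ?_⟩
  · intro n hn F hF r A hA
    have hback : HasSection F A → Pool.Agent.Run7.h490.OR.AdIso F (fun i l => A l i) := fun h =>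
      Pool.Agent.Run7.h490.OR.adiso_of_section hF.1 (hne hF) _ hA h
    refine ⟨fun h => Pool.Agent.Run7.h490.OR.rational_of hn hF.1 hF.2 _ (hback h),
      fun h => Pool.Agent.Run7.h490.OR.section_of hF.1 hF.2 _ (hline A hF hA h),
      fun h => Pool.Agent.Run7.h490.OR.section_of hF.1 hF.2 _ (hjump A hF hA h),
      fun hrk h => ⟨?_, ?_⟩⟩
    · obtain ⟨x, L, t, h1, h2, h3, h4, h5⟩ :=
        Pool.Agent.Run7.h490.OR.line_pt hn hF.1 hF.2 (fun i l => A l i) hrk (hback h)
      refine ⟨_, _, _, x, L, t, ⟨h1, ?_⟩, h3, h4, h5⟩
      have h6 : functionField x = ⊤ := h2
      rw [h6, IntermediateField.finrank_top]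
      exact odd_one
    · obtain ⟨x, y, s, w, h1, h2, h3, h4, h5, h6⟩ :=
        Pool.Agent.Run7.h490.OR.jump hn hF.1 hF.2 (fun i l => A l i) hrk (hback h)
      refine ⟨_, _, _, x, y, ⟨h1, ?_⟩, h3, fun h7 => h6 h7.2, s, w, h4, h5⟩
      have h7 : functionField x = ⊤ := h2
      rw [h7, IntermediateField.finrank_top]
      exact odd_one
  · intro n hn
    obtain ⟨Ps, h1, h2, h3⟩ := Pool.Agent.R845.VG.very_general (n + 2) 3
    refine ⟨Ps, h1, h2, fun F hF hP r A hA => ?_⟩
    have hno : ¬ Pool.Agent.Run7.h490.OR.AdIso F (fun i l => A l i) :=
      Pool.Agent.Run7.h490.OR.no_adiso hn hF.1 hF.2 (h3 F hP) (fun i l => A l i)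
    exact ⟨fun h => hno (Pool.Agent.Run7.h490.OR.adiso_of_section hF.1 (hne hF) _ hA h),
      fun h => hno (hline A hF hA h), fun h => hno (hjump A hF hA h)⟩

end Pool.Agent.Results.MP_2619d0_ag.OddImpliesRational
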