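import Mathlib
import Pool.Agent.Run7.h490.PF7

/-!
# Families of plane curves on a smooth cubic hypersurface

Let `X = (F = 0)` be ANY smooth cubic hypersurface of dimension `n`, let `M` be a field which contains
`ℂ` and let `x` be a generic point of `X` over `M` such that the degree of `M` over the function field
of `X` is odd (for `M` the field of rational functions in `n` variables this is a dominant rational
map of odd degree from projective space to `X`, for example a birational parametrization). Let `L` be
a subfield of `M` over which `M` is not algebraic.

(1) If `x` is in a linear subspace `Λ` over `L`, then the section of `X` by `Λ` has no singular point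
over `L`.

(2) If `x` is a point over `L(t)` of a plane over `L` (so the curves traced by `x`, for varying `t`,
are rational plane curves), then the plane meets `X` in a smooth conic and a line over `L`, the point
`x` is on the conic, and the conic meets the line in two points which are not defined over `L`. So
an odd number of curves of a family of plane rational curves can pass through the general point of `X`
only if the curves are conics whose residual lines meet them in pairs of points which are interchanged
by monodromy. There are no such families of plane nodal or cuspidal cubics, of conics tangent to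
their residual lines, or of conics with a distinguished point on the residual line.

(3) If a variable `t_j` occurs in a dominant map of odd degree given by polynomials only with the
exponents `a < b < c`, then `a + c = 2 b` and `b - a` is odd.

Idea of the proof. By the theorem on tangent lines of the starting files (project T2) the line
through `x` and another point `y` of `X` over `M` is not tangent to `X` at `y`; so no point over `L`
is a singular point of a section which contains `x`. A plane cubic over `L` which has a point over
`L(t)` that is not on a line over `L` is singular over the algebraic closure (the polars of a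
parametrization of degree `e` have degree `2 e` and are proportional to the vector product of the
parametrization and its derivative, of degree at most `2 e - 2`). Galois descent: if there is one
singular point it is defined over `L`, and if there are three which are not on a line, then the curve
is a triangle and `x` is on a line over `L`; both is impossible. Otherwise the line of the singular
points is defined over `L` and is contained in `X`.
-/

set_option autoImplicit false

namespace Pool.Agent.Results.MP_2619d0_ag.PlaneFamilies

open MvPolynomial

/-- `F` is the equation of a smooth cubic hypersurface of dimension `n`: a cubic form in `n + 2`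
variables whose partial derivatives have no common zero besides the origin -/
def SmoothCubic {n : ℕ} (F : MvPolynomial (Fin (n + 2)) ℂ) : Prop :=
  F.IsHomogeneous 3 ∧ ∀ z : Fin (n + 2) → ℂ, (∀ i, eval z (pderiv i F) = 0) → z = 0

/-- `x` is a generic point of the hypersurface `F = 0` with coordinates in an extension field `M` of
the complex numbers: `F` vanishes at `x`, and every form vanishing at `x` is divisible by `F` -/
def GenericPoint {n : ℕ} {M : Type} [Field M] [Algebra ℂ M] (F : MvPolynomial (Fin (n + 2)) ℂ)
    (x : Fin (n + 2) → M) : Prop :=
  aeval x F = 0 ∧ ∀ (e : ℕ) (H : MvPolynomial (Fin (n + 2)) ℂ), H.IsHomogeneous e →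
    aeval x H = 0 → F ∣ H

/-- the field generated by the ratios of the coordinates of `x`; for a generic point of `X` it is
the function field of `X` -/
noncomputable def functionField {n : ℕ} {M : Type} [Field M] [Algebra ℂ M] (x : Fin (n + 2) → M) :
    IntermediateField ℂ M :=
  IntermediateField.adjoin ℂ {z | ∃ i j, z = x i / x j}

/-- `x` is a generic point of the hypersurface `F = 0`, and the field `M` has odd degree over the
function field of the hypersurface -/
def OddPoint {n : ℕ} {M : Type} [Field M] [Algebra ℂ M] (F : MvPolynomial (Fin (n + 2)) ℂ)
    (x : Fin (n + 2) → M) : Prop :=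
  GenericPoint F x ∧ Odd (Module.finrank (functionField x) M)

/-- sections by linear subspaces: let `x` be a generic point of `X` over `M` of odd degree, let `L` be
a subfield of `M` over which `M` is not algebraic, and let `x` be in the span over `M` of vectors
`v a` over `L`. Then the section of `X` by the span has no singular point over `L`; more generally
there is no point `y` of `X` over `L` such that the tangent hyperplane of `X` at `y` contains all
`v a` -/
def SectionsSmooth {n : ℕ} (F : MvPolynomial (Fin (n + 2)) ℂ) : Prop :=
  ∀ (M : Type) [Field M] [Algebra ℂ M] (x : Fin (n + 2) → M), OddPoint F x →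
    ∀ (L : IntermediateField ℂ M) (t : M), Transcendental L t →
      ∀ (k : ℕ) (v : Fin k → Fin (n + 2) → L) (lam : Fin k → M),
        (∀ i, x i = ∑ a, lam a * (v a i : M)) →
        ∀ y : Fin (n + 2) → L, y ≠ 0 → aeval y F = 0 →
          ∃ a, ∑ i, v a i * aeval y (pderiv i F) ≠ 0

/-- the plane spanned by `w 0`, `w 1`, `w 2` over `L` meets the cubic `F = 0` in the line `Y 0 = 0`
and in the smooth conic with the symmetric matrix `Q`, where `Y a` are the coordinates of the plane,
and the line and the conic have no common point over `L` -/
def LineAndConic {n : ℕ} (F : MvPolynomial (Fin (n + 2)) ℂ) {M : Type} [Field M] [Algebra ℂ M]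
    {L : IntermediateField ℂ M} (w : Fin 3 → Fin (n + 2) → L) (Q : Matrix (Fin 3) (Fin 3) L) :
    Prop :=
  Q.IsSymm ∧ Q.det ≠ 0 ∧
  (∀ Y : Fin 3 → M, aeval (fun i => ∑ a, Y a * (w a i : M)) F =
    Y 0 * ∑ a, ∑ b, (Q a b : M) * Y a * Y b) ∧
  ∀ b c : L, Q 1 1 * b ^ 2 + 2 * Q 1 2 * b * c + Q 2 2 * c ^ 2 = 0 → b = 0 ∧ c = 0

/-- families of plane curves: let `x` be a generic point of `X` over `M` of odd degree, `L` a subfield
of `M`, `t` in `M` transcendental over `L`, and `x` a combination of three vectors `v 0`, `v 1`, `v 2`
over `L` with coefficients in `L(t)`. Then the `v a` are linearly independent over `L`, and their span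
over `L` has a basis `w = W v` such that the plane meets `X` in a line and a smooth conic without
common points over `L`, and the point `x = ∑ μ a * w a` is on the conic and not on the line -/
def PlaneCurvesAreConics {n : ℕ} (F : MvPolynomial (Fin (n + 2)) ℂ) : Prop :=
  ∀ (M : Type) [Field M] [Algebra ℂ M] (x : Fin (n + 2) → M), OddPoint F x →
    ∀ (L : IntermediateField ℂ M) (t : M), Transcendental L t →
      ∀ (v : Fin 3 → Fin (n + 2) → L) (lam : Fin 3 → M),
        (∀ a, lam a ∈ IntermediateField.adjoin L {t}) →
        (∀ i, x i = ∑ a, lam a * (v a i : M)) →
        LinearIndependent L v ∧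
        ∃ (W Q : Matrix (Fin 3) (Fin 3) L) (w : Fin 3 → Fin (n + 2) → L) (μ : Fin 3 → M),
          W.det ≠ 0 ∧ (∀ a i, w a i = ∑ b, W a b * v b i) ∧ LineAndConic F w Q ∧
          (∀ i, x i = ∑ a, μ a * (w a i : M)) ∧ μ 0 ≠ 0 ∧
          ∑ a, ∑ b, (Q a b : M) * μ a * μ b = 0

/-- polynomial maps: if the `G i` are polynomials in `N` variables which give a dominant map of odd
degree to `X`, and the variable `X j` occurs in all monomials of all `G i` only with the exponents
`a < b < c`, then `a + c = 2 * b` and `b - a` is odd -/
def ThreeExponents {n : ℕ} (F : MvPolynomial (Fin (n + 2)) ℂ) : Prop :=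
  ∀ (N : ℕ) (G : Fin (n + 2) → MvPolynomial (Fin N) ℂ) (j : Fin N) (a b c : ℕ),
    OddPoint F (fun i => algebraMap (MvPolynomial (Fin N) ℂ)
      (FractionRing (MvPolynomial (Fin N) ℂ)) (G i)) → a < b → b < c →
    (∀ i, ∀ m ∈ (G i).support, m j = a ∨ m j = b ∨ m j = c) →
    a + c = 2 * b ∧ Odd (b - a)

/-- Let `X = (F = 0)` be any smooth cubic hypersurface of any dimension `n`. (1) Linear sections over
a subfield which contain a generic point of odd degree have no singular point over the subfield.
(2) Families of plane rational curves of odd degree on `X` are families of conics whose residual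
lines meet them in two points which are not defined over the field of the family. (3) A variable
which occurs in a dominant map of odd degree only with three exponents `a < b < c` satisfies
`a + c = 2 * b`, and `b - a` is odd. -/
theorem result (n : ℕ) (F : MvPolynomial (Fin (n + 2)) ℂ) (hF : SmoothCubic F) :
    SectionsSmooth F ∧ PlaneCurvesAreConics F ∧ ThreeExponents F := by
  obtain ⟨hF3, hsm⟩ := hF
  obtain ⟨T, hT, hFT⟩ := Pool.Agent.Y201.C3.exists_tri F hF3
  refine ⟨?_, ?_, ?_⟩
  · intro M _ _ x hx L t ht k v lam hxv y hy0 hyF
    by_contra hall
    push Not at hall
    have hyM0 : (fun i => (y i : M)) ≠ 0 := by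
      intro h0
      apply hy0
      funext i
      exact Subtype.ext (congrFun h0 i)
    have hyM : aeval (fun i => (y i : M)) F = 0 := by
      have h1 := comp_aeval_apply (f := y) (L.val : L →ₐ[ℂ] M) F
      rw [hyF, map_zero] at h1
      exact h1.symm
    refine Pool.Agent.Run7.h490.PF.no_pt hF3 hsm hT hFT x hx.1 hx.2 L t ht
      (fun i => (y i : M)) (fun i => (y i).2) hyM0 hyM ?_
    -- `∑ x_i ∂_i F (y) = 3 T (x, y, y)`
    have h2 : ∀ u : Fin (n + 2) → M, ∑ i, u i * aeval (fun i => (y i : M)) (pderiv i F) =
        3 * Pool.Agent.Y201.C3.Bg T u (fun i => (y i : M)) (fun i => (y i : M)) := by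
      intro u
      have h3 : u = fun i => ∑ l, u l * (if i = l then (1 : M) else 0) := by
        funext i
        rw [Finset.sum_eq_single i]
        · rw [if_pos rfl, mul_one]
        · intro b _ hb
          rw [if_neg (Ne.symm hb), mul_zero]
        · intro h
          exact absurd (Finset.mem_univ i) h
      conv_rhs => rw [h3]
      rw [Pool.Agent.Y201.C3.Bg_sum1, Finset.mul_sum]
      refine Finset.sum_congr rfl fun l _ => ?_
      rw [Pool.Agent.Y201.C3.Bg_smul1]
      have h4 := Pool.Agent.Y201.C3.pderiv_frmG hT l (fun i => (y i : M))
      rw [← hFT] at h4
      rw [h4]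
      ring
    have h5 : ∑ i, x i * aeval (fun i => (y i : M)) (pderiv i F) = 0 := by
      have h6 : ∀ a, ∑ i, (v a i : M) * aeval (fun i => (y i : M)) (pderiv i F) = 0 := by
        intro a
        have h7 := congrArg (fun z : L => (z : M)) (hall a)
        simp only [IntermediateField.coe_sum, IntermediateField.coe_mul,
          IntermediateField.coe_zero] at h7
        rw [← h7]
        refine Finset.sum_congr rfl fun i _ => ?_
        congr 1
        exact (comp_aeval_apply (f := y) (L.val : L →ₐ[ℂ] M) (pderiv i F)).symm
      simp only [hxv, Finset.sum_mul]
      rw [Finset.sum_comm]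
      refine Finset.sum_eq_zero fun a _ => ?_
      have h8 : ∑ i, lam a * (v a i : M) * aeval (fun i => (y i : M)) (pderiv i F) =
          lam a * ∑ i, (v a i : M) * aeval (fun i => (y i : M)) (pderiv i F) := by
        rw [Finset.mul_sum]
        exact Finset.sum_congr rfl fun i _ => by ring
      rw [h8, h6, mul_zero]
    rw [h2] at h5
    have hc : CharZero M := charZero_of_injective_algebraMap (algebraMap ℂ M).injective
    exact (mul_eq_zero.1 h5).resolve_left (by norm_num)
  · intro M _ _ x hx L t ht v lam hlam hxv
    refine ⟨?_, ?_⟩
    · rw [Fintype.linearIndependent_iff]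
      intro g hg a
      have h1 := Pool.Agent.Run7.h490.PF.V_ind hF3 hsm x hx.1 hx.2 L t ht v lam hxv g
        (fun i => by
          have h2 := congrArg (fun z : L => (z : M)) (congrFun hg i)
          simp only [Finset.sum_apply, Pi.smul_apply, smul_eq_mul, IntermediateField.coe_sum,
            IntermediateField.coe_mul, Pi.zero_apply, IntermediateField.coe_zero] at h2
          exact h2)
      exact congrFun h1 a
    · obtain ⟨W, Q, μ, h1, h2, h3, h4, h5, h6, h7, h8, -⟩ :=
        Pool.Agent.Run7.h490.PF.family hF3 hsm hT hFT x hx.1 hx.2 L t ht v lam hlam hxv
      have hw : ∀ a i, ((∑ b, W a b * v b i : L) : M) = ∑ b, (W a b : M) * (v b i : M) := by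
        intro a i
        rw [IntermediateField.coe_sum]
        exact Finset.sum_congr rfl fun b _ => rfl
      refine ⟨W, Q, fun a i => ∑ b, W a b * v b i, μ, h1, fun a i => rfl, ⟨h2, h3, ?_, h5⟩, ?_,
        h7, h8⟩
      · intro Y
        simp only [hw]
        exact h4 Y
      · intro i
        simp only [hw]
        exact h6 i
  · intro N G j a b c hx hab hbc hG
    have h1 := Pool.Agent.Run7.h490.PF.three_exp hF3 hsm G j hx.1 hx.2 ![a, b, c] hab hbc
      (fun i m hm => by
        rcases hG i m hm with h | h | h
        · exact ⟨0, h⟩
        · exact ⟨1, h⟩
        · exact ⟨2, h⟩)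
    exact h1

end Pool.Agent.Results.MP_2619d0_ag.PlaneFamilies
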